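import Pool.Agent.BEL.StmtsP
import Pool.Agent.Helper69_BE01.Chn

/-!
# Squad BEL (MP_be01ff_an), row PRD: product with a smooth function
-/

set_option autoImplicit false

noncomputable section

namespace Pool.Agent.BEL.H60

open Set Filter Topology MeasureTheory
open scoped InnerProductSpace ENNReal
open Pool.Agent.BE01

/-! ## multiplication by a bounded continuous function -/

section
variable {d : ℕ} {Ω : Set (En d)} {F : Type} [NormedAddCommGroup F] [NormedSpace ℝ F]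

theorem memLp_ml {f : En d → ℝ} (hf : Continuous f) {M : ℝ} (hM : ∀ x, ‖f x‖ ≤ M)
    (g : Lp F 2 (mu Ω)) : MemLp (fun x => f x • g x) 2 (mu Ω) := by
  refine MemLp.of_le_mul (c := M) (Lp.memLp g) ?_ ?_
  · exact hf.aestronglyMeasurable.smul (Lp.aestronglyMeasurable g)
  · refine Eventually.of_forall fun x => ?_
    rw [norm_smul]
    exact mul_le_mul_of_nonneg_right (hM _) (norm_nonneg _)

/-- The product `f g`. -/
def ml {f : En d → ℝ} (hf : Continuous f) {M : ℝ} (hM : ∀ x, ‖f x‖ ≤ M)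
    (g : Lp F 2 (mu Ω)) : Lp F 2 (mu Ω) := (memLp_ml hf hM g).toLp _

theorem ml_coe {f : En d → ℝ} (hf : Continuous f) {M : ℝ} (hM : ∀ x, ‖f x‖ ≤ M)
    (g : Lp F 2 (mu Ω)) : ml hf hM g =ᵐ[mu Ω] fun x => f x • g x := MemLp.coeFn_toLp _

theorem ml_lim {f : En d → ℝ} (hf : Continuous f) {M : ℝ} (hM : ∀ x, ‖f x‖ ≤ M)
    (g : ℕ → Lp F 2 (mu Ω)) (g0 : Lp F 2 (mu Ω)) (hg : Tendsto g atTop (𝓝 g0)) :
    Tendsto (fun n => ml hf hM (g n)) atTop (𝓝 (ml hf hM g0)) := by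
  have h1 : ∀ n, ‖ml hf hM (g n) - ml hf hM g0‖ ≤ M * ‖g n - g0‖ := by
    intro n
    refine Lp.norm_le_mul_norm_of_ae_le_mul ?_
    filter_upwards [Lp.coeFn_sub (ml hf hM (g n)) (ml hf hM g0),
      Lp.coeFn_sub (g n) g0, ml_coe hf hM (g n), ml_coe hf hM g0] with x e1 e2 e3 e4
    rw [e1, e2, Pi.sub_apply, Pi.sub_apply, e3, e4, ← smul_sub, norm_smul]
    exact mul_le_mul_of_nonneg_right (hM _) (norm_nonneg _)
  rw [← tendsto_sub_nhds_zero_iff, tendsto_zero_iff_norm_tendsto_zero]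
  refine squeeze_zero (fun n => norm_nonneg _) h1 ?_
  have h3 : Tendsto (fun n => ‖g n - g0‖) atTop (𝓝 0) := by
    have := (tendsto_sub_nhds_zero_iff.mpr hg).norm
    simpa using this
  simpa using h3.const_mul M

theorem memLp_mr {c : En d → F} (hc : Continuous c) {M : ℝ} (hM : ∀ x, ‖c x‖ ≤ M)
    (u : Lp ℝ 2 (mu Ω)) : MemLp (fun x => u x • c x) 2 (mu Ω) := by
  refine MemLp.of_le_mul (c := M) (Lp.memLp u) ?_ ?_
  · exact (Lp.aestronglyMeasurable u).smul hc.aestronglyMeasurable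
  · refine Eventually.of_forall fun x => ?_
    rw [norm_smul, mul_comm]
    exact mul_le_mul_of_nonneg_right (hM _) (norm_nonneg _)

/-- The product `u c`. -/
def mr {c : En d → F} (hc : Continuous c) {M : ℝ} (hM : ∀ x, ‖c x‖ ≤ M)
    (u : Lp ℝ 2 (mu Ω)) : Lp F 2 (mu Ω) := (memLp_mr hc hM u).toLp _

theorem mr_coe {c : En d → F} (hc : Continuous c) {M : ℝ} (hM : ∀ x, ‖c x‖ ≤ M)
    (u : Lp ℝ 2 (mu Ω)) : mr hc hM u =ᵐ[mu Ω] fun x => u x • c x := MemLp.coeFn_toLp _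

theorem mr_lim {c : En d → F} (hc : Continuous c) {M : ℝ} (hM : ∀ x, ‖c x‖ ≤ M)
    (u : ℕ → Lp ℝ 2 (mu Ω)) (u0 : Lp ℝ 2 (mu Ω)) (hu : Tendsto u atTop (𝓝 u0)) :
    Tendsto (fun n => mr hc hM (u n)) atTop (𝓝 (mr hc hM u0)) := by
  have h1 : ∀ n, ‖mr hc hM (u n) - mr hc hM u0‖ ≤ M * ‖u n - u0‖ := by
    intro n
    refine Lp.norm_le_mul_norm_of_ae_le_mul ?_
    filter_upwards [Lp.coeFn_sub (mr hc hM (u n)) (mr hc hM u0),
      Lp.coeFn_sub (u n) u0, mr_coe hc hM (u n), mr_coe hc hM u0] with x e1 e2 e3 e4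
    rw [e1, e2, Pi.sub_apply, Pi.sub_apply, e3, e4, ← sub_smul, norm_smul, mul_comm]
    exact mul_le_mul_of_nonneg_right (hM _) (norm_nonneg _)
  rw [← tendsto_sub_nhds_zero_iff, tendsto_zero_iff_norm_tendsto_zero]
  refine squeeze_zero (fun n => norm_nonneg _) h1 ?_
  have h3 : Tendsto (fun n => ‖u n - u0‖) atTop (𝓝 0) := by
    have := (tendsto_sub_nhds_zero_iff.mpr hu).norm
    simpa using this
  simpa using h3.const_mul M

end

theorem grad_mul {d : ℕ} {f g : En d → ℝ} (hf : ContDiff ℝ ((⊤ : ℕ∞) : WithTop ℕ∞) f)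
    (hg : ContDiff ℝ ((⊤ : ℕ∞) : WithTop ℕ∞) g) (x : En d) :
    gradient (fun y => f y * g y) x = f x • gradient g x + g x • gradient f x := by
  have h1 : DifferentiableAt ℝ f x := (hf.differentiable (by simp)) x
  have h2 : DifferentiableAt ℝ g x := (hg.differentiable (by simp)) x
  unfold gradient
  rw [fderiv_fun_mul h1 h2, map_add]
  simp

theorem grad_cont {d : ℕ} {f : En d → ℝ} (hf : ContDiff ℝ ((⊤ : ℕ∞) : WithTop ℕ∞) f) :
    Continuous (gradient f) :=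
  (InnerProductSpace.toDual ℝ (En d)).symm.continuous.comp (hf.continuous_fderiv (by simp))

theorem grad_supp {d : ℕ} {f : En d → ℝ} (hf : HasCompactSupport f) :
    HasCompactSupport (gradient f) :=
  (hf.fderiv ℝ).comp_left (g := (InnerProductSpace.toDual ℝ (En d)).symm) (map_zero _)

theorem tst_mul {d : ℕ} {Ω : Set (En d)} {f ψ : En d → ℝ}
    (hf : ContDiff ℝ ((⊤ : ℕ∞) : WithTop ℕ∞) f) (h : Tst Ω ψ) : Tst Ω (fun y => f y * ψ y) :=
  ⟨hf.mul h.1, h.2.1.mul_left, (tsupport_mul_subset_right (f := f) (g := ψ)).trans h.2.2⟩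

theorem prd : PrdStmt := by
  intro d Ω ι f hΩ hι hf hfs G
  have hfc : Continuous f := hf.continuous
  obtain ⟨M, hM⟩ := hfc.bounded_above_of_compact_support hfs
  have hgc : Continuous (gradient f) := grad_cont hf
  obtain ⟨M', hM'⟩ := hgc.bounded_above_of_compact_support (grad_supp hfs)
  -- the approximating sequence
  have hG : (G : Lp (En d) 2 (mu Ω)) ∈
      closure {G : Lp (En d) 2 (mu Ω) | ∃ ψ, Tst Ω ψ ∧ G =ᵐ[mu Ω] gradient ψ} :=
    (H69.mem_VV_iff Ω _).mp G.2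
  obtain ⟨g, hg, hgG⟩ := mem_closure_iff_seq_limit.mp hG
  choose ψ hψ hgψ using hg
  have hgV : ∀ n, g n ∈ VV Ω := fun n =>
    (H69.mem_VV_iff Ω _).mpr (subset_closure ⟨ψ n, hψ n, hgψ n⟩)
  let g' : ℕ → VV Ω := fun n => ⟨g n, hgV n⟩
  have hg' : Tendsto g' atTop (𝓝 G) := tendsto_subtype_rng.mpr hgG
  have hy : Tendsto (fun n => ι (g' n)) atTop (𝓝 (ι G)) := (ι.continuous.tendsto G).comp hg'
  have hyψ : ∀ n, ι (g' n) =ᵐ[mu Ω] ψ n := fun n => hι (ψ n) (hψ n) (g' n) (hgψ n)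
  -- the gradients of the products
  have hmem : ∀ n, ∃ H : VV Ω, (H : Lp (En d) 2 (mu Ω)) =ᵐ[mu Ω]
      gradient (fun y => f y * ψ n y) := by
    intro n
    have h1 := H69.grad_memLp (tst_mul hf (hψ n))
    refine ⟨⟨h1.toLp _, (H69.mem_VV_iff Ω _).mpr (subset_closure
      ⟨_, tst_mul hf (hψ n), h1.coeFn_toLp⟩)⟩, h1.coeFn_toLp⟩
  choose H hH using hmem
  have hHp : ∀ n, (H n : Lp (En d) 2 (mu Ω)) = ml hfc hM (g n) + mr hgc hM' (ι (g' n)) := by
    intro n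
    refine Lp.ext ?_
    filter_upwards [hH n, ml_coe hfc hM (g n), mr_coe hgc hM' (ι (g' n)), hyψ n, hgψ n,
      Lp.coeFn_add (ml hfc hM (g n)) (mr hgc hM' (ι (g' n)))] with x e1 e2 e3 e4 e5 e6
    rw [e1, e6, Pi.add_apply, e2, e3, grad_mul hf (hψ n).1, e4, e5]
  have hHlim : Tendsto (fun n => (H n : Lp (En d) 2 (mu Ω))) atTop
      (𝓝 (ml hfc hM (G : Lp (En d) 2 (mu Ω)) + mr hgc hM' (ι G))) := by
    simp only [hHp]
    exact (ml_lim hfc hM g _ hgG).add (mr_lim hgc hM' _ _ hy)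
  have hL : ml hfc hM (G : Lp (En d) 2 (mu Ω)) + mr hgc hM' (ι G) ∈ VV Ω :=
    (H69.VV_closed Ω).mem_of_tendsto hHlim (Eventually.of_forall fun n => (H n).2)
  let L : VV Ω := ⟨_, hL⟩
  have hHL : Tendsto (fun n => H n) atTop (𝓝 L) := tendsto_subtype_rng.mpr hHlim
  have h1 : Tendsto (fun n => ι (H n)) atTop (𝓝 (ι L)) := (ι.continuous.tendsto L).comp hHL
  have h2 : ∀ n, ι (H n) = ml hfc hM (ι (g' n)) := by
    intro n
    refine Lp.ext ?_
    filter_upwards [hι _ (tst_mul hf (hψ n)) (H n) (hH n),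
      ml_coe hfc hM (ι (g' n)), hyψ n] with x e1 e2 e3
    rw [e1, e2, e3, smul_eq_mul]
  have h3 : Tendsto (fun n => ι (H n)) atTop (𝓝 (ml hfc hM (ι G))) := by
    simp only [h2]
    exact ml_lim hfc hM _ _ hy
  have h4 : ι L = ml hfc hM (ι G) := tendsto_nhds_unique h1 h3
  refine ⟨L, ?_, ?_⟩
  · rw [h4]
    exact ml_coe hfc hM (ι G)
  · show (↑↑(ml hfc hM (G : Lp (En d) 2 (mu Ω)) + mr hgc hM' (ι G)) : En d → En d) =ᵐ[mu Ω] _
    filter_upwards [ml_coe hfc hM (G : Lp (En d) 2 (mu Ω)), mr_coe hgc hM' (ι G),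
      Lp.coeFn_add (ml hfc hM (G : Lp (En d) 2 (mu Ω))) (mr hgc hM' (ι G))] with x e1 e2 e3
    rw [e3, Pi.add_apply, e1, e2]

end Pool.Agent.BEL.H60
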