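import Pool.Agent.BEL.StmtsP

/-!
# Squad BEL (MP_be01ff_an), row GRW: growth of the eigenvalues
-/

set_option autoImplicit false

noncomputable section

namespace Pool.Agent.BEL.H60

open Set Filter Topology MeasureTheory
open scoped InnerProductSpace ENNReal
open Pool.Agent.BE01

theorem sq_int {d : ℕ} {Ω : Set (En d)} (b : HilbertBasis ℕ ℝ (Lp ℝ 2 (mu Ω))) (k : ℕ) :
    ∫ x, (b k x) ^ 2 ∂(mu Ω) = 1 := by
  have h1 : ⟪b k, b k⟫_ℝ = 1 := by
    rw [real_inner_self_eq_norm_sq, b.orthonormal.1 k, one_pow]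
  rw [L2.inner_def] at h1
  rw [← h1]
  refine integral_congr_ae (Eventually.of_forall fun x => ?_)
  show (b k x) ^ 2 = ⟪b k x, b k x⟫_ℝ
  rw [real_inner_self_eq_norm_sq, Real.norm_eq_abs, sq_abs]

theorem grw (lwu : LwuStmt) (lwl : LwlStmt) : GrwStmt := by
  intro d Ω ι b e om hd hΩ hι hs
  obtain ⟨C₁, hC₁, h1⟩ := lwu d Ω ι b e om hd hΩ hι hs
  obtain ⟨C₂, hC₂, h2⟩ := lwl d Ω ι b e om hd hΩ hι hs
  have hd0 : (d : ℝ) ≠ 0 := by
    have : d ≠ 0 := by omega
    exact_mod_cast this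
  have hroot : ∀ x : ℝ, 0 ≤ x → (x ^ (1 / (d : ℝ))) ^ d = x := by
    intro x hx
    rw [← Real.rpow_natCast, ← Real.rpow_mul hx, one_div, inv_mul_cancel₀ hd0, Real.rpow_one]
  refine ⟨⟨C₁ * C₂ ^ d, fun n => ?_⟩, ?_⟩
  · rcases Nat.eq_zero_or_pos n with rfl | hn
    · refine Eventually.of_forall fun x => ?_
      simp
    · have h3 : om (n - 1) ^ d ≤ C₂ ^ d * n := by
        have h4 := h2 (n - 1)
        have h5 : ((n - 1 : ℕ) : ℝ) + 1 = n := by
          rw [Nat.cast_sub hn]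
          push_cast
          ring
        rw [h5] at h4
        calc om (n - 1) ^ d ≤ (C₂ * (n : ℝ) ^ (1 / (d : ℝ))) ^ d :=
              pow_le_pow_left₀ (hs.pos _).le h4 d
          _ = C₂ ^ d * n := by rw [mul_pow, hroot n (Nat.cast_nonneg n)]
      filter_upwards [h1 n] with x hx
      calc ∑ k ∈ Finset.range n, (b k x) ^ 2 ≤ C₁ * om (n - 1) ^ d := hx
        _ ≤ C₁ * (C₂ ^ d * n) := by gcongr
        _ = C₁ * C₂ ^ d * n := by ring
  · have hfin : IsFiniteMeasure (mu Ω) := by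
      refine ⟨?_⟩
      rw [mu, Measure.restrict_apply_univ]
      exact hΩ.2.1.measure_lt_top
    obtain ⟨m, hm⟩ : ∃ m : ℝ, m = (mu Ω).real univ := ⟨_, rfl⟩
    have hm0 : 0 ≤ m := by rw [hm]; exact measureReal_nonneg
    obtain ⟨A, hA⟩ : ∃ A : ℝ, A = C₁ * (m + 1) := ⟨_, rfl⟩
    have hA0 : 0 < A := by rw [hA]; positivity
    refine ⟨(1 / A) ^ (1 / (d : ℝ)), C₂, by positivity, hC₂, fun n => ⟨?_, h2 n⟩⟩
    have hint : ∀ k, Integrable (fun x => (b k x) ^ 2) (mu Ω) := fun k =>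
      (Lp.memLp (b k)).integrable_sq
    have h3 : ∫ x, ∑ k ∈ Finset.range (n + 1), (b k x) ^ 2 ∂(mu Ω) = (n : ℝ) + 1 := by
      rw [integral_finsetSum _ (fun k _ => hint k), Finset.sum_congr rfl fun k _ => sq_int b k]
      simp
    have h4 : ∫ x, ∑ k ∈ Finset.range (n + 1), (b k x) ^ 2 ∂(mu Ω) ≤
        ∫ _x, C₁ * om n ^ d ∂(mu Ω) := by
      refine integral_mono_ae (integrable_finsetSum _ fun k _ => hint k) (integrable_const _) ?_
      have := h1 (n + 1)
      rw [Nat.add_sub_cancel] at this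
      exact this
    rw [h3, integral_const, ← hm, smul_eq_mul] at h4
    have hom : 0 < om n := hs.pos n
    have h5 : (n : ℝ) + 1 ≤ A * om n ^ d := by
      calc (n : ℝ) + 1 ≤ m * (C₁ * om n ^ d) := h4
        _ ≤ (m + 1) * (C₁ * om n ^ d) := by
            have : 0 < C₁ * om n ^ d := by positivity
            nlinarith
        _ = A * om n ^ d := by rw [hA]; ring
    have h6 : ((1 / A) ^ (1 / (d : ℝ)) * ((n : ℝ) + 1) ^ (1 / (d : ℝ))) ^ d ≤ om n ^ d := by
      rw [mul_pow, hroot _ (by positivity), hroot _ (by positivity), one_div,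
        inv_mul_le_iff₀ hA0]
      exact h5
    exact le_of_pow_le_pow_left₀ (by omega) hom.le h6

end Pool.Agent.BEL.H60
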