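import Pool.Agent.BEL.StmtsC

/-!
# Squad BEL (MP_be01ff_an), row CGL: elementary properties of the truncated nonlinearity
-/

set_option autoImplicit false

noncomputable section

namespace Pool.Agent.BEL.H60

open MeasureTheory Filter Topology Set
open scoped InnerProductSpace ENNReal

theorem min_nn {l : ℝ} (hl : 0 ≤ l) (s : ℝ) : 0 ≤ min |s| l := le_min (abs_nonneg s) hl

theorem mm_nn {al l : ℝ} (hl : 0 ≤ l) (s : ℝ) : 0 ≤ mm al l s :=
  Real.rpow_nonneg (min_nn hl s) _

theorem mm_cont {al l : ℝ} (hal : 0 < al) : Continuous (mm al l) :=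
  (continuous_abs.min continuous_const).rpow_const fun _ => Or.inr hal.le

theorem mm_mono {al l : ℝ} (hal : 0 < al) (hl : 0 ≤ l) {r s : ℝ} (h : |r| ≤ |s|) :
    mm al l r ≤ mm al l s :=
  Real.rpow_le_rpow (min_nn hl r) (min_le_min h le_rfl) hal.le

theorem mm_neg (al l s : ℝ) : mm al l (-s) = mm al l s := by
  unfold mm
  rw [abs_neg]

theorem ql_cont {a al l : ℝ} (hal : 0 < al) : Continuous (ql a al l) :=
  continuous_const.mul (mm_cont hal)

theorem gl_neg (a al l s : ℝ) : gl a al l (-s) = -gl a al l s := by
  unfold gl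
  have h1 : ∀ r, ql a al l (-r) = ql a al l r := fun r => by
    unfold ql
    rw [mm_neg]
  have h2 := intervalIntegral.integral_comp_neg (fun r => ql a al l r) (a := 0) (b := s)
  simp only [h1, neg_zero] at h2
  rw [h2, intervalIntegral.integral_symm]

theorem gl_small {a al l s : ℝ} (hal : 0 < al) (h0 : 0 ≤ s) (h1 : s ≤ l) :
    gl a al l s = a * s ^ al * s := by
  unfold gl
  have h2 : ∫ r in (0 : ℝ)..s, ql a al l r = ∫ r in (0 : ℝ)..s, a * (al + 1) * r ^ al := by
    refine intervalIntegral.integral_congr fun r hr => ?_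
    rw [uIcc_of_le h0] at hr
    unfold ql mm
    rw [abs_of_nonneg hr.1, min_eq_left (hr.2.trans h1)]
  rw [h2, intervalIntegral.integral_const_mul, integral_rpow (Or.inl (by linarith)),
    Real.zero_rpow (by linarith), sub_zero]
  rcases h0.eq_or_lt with rfl | hs
  · rw [Real.zero_rpow (by linarith)]
    simp
  · rw [Real.rpow_add_one hs.ne']
    have : al + 1 ≠ 0 := by linarith
    field_simp

theorem gl_large {a al l s : ℝ} (hal : 0 < al) (hl : 0 ≤ l) (h1 : l ≤ s) :
    gl a al l s = a * l ^ al * l + a * (al + 1) * l ^ al * (s - l) := by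
  have hq := ql_cont (a := a) (l := l) hal
  have h2 : gl a al l s = gl a al l l + ∫ r in l..s, ql a al l r := by
    unfold gl
    exact (intervalIntegral.integral_add_adjacent_intervals (hq.intervalIntegrable _ _)
      (hq.intervalIntegrable _ _)).symm
  have h3 : ∫ r in l..s, ql a al l r = ∫ _r in l..s, a * (al + 1) * l ^ al := by
    refine intervalIntegral.integral_congr fun r hr => ?_
    rw [uIcc_of_le h1] at hr
    unfold ql mm
    rw [abs_of_nonneg (hl.trans hr.1), min_eq_right hr.1]
  rw [h2, gl_small hal hl le_rfl, h3, intervalIntegral.integral_const, smul_eq_mul]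
  ring

theorem cgl : CglStmt := by
  intro a al l ha hal hl
  have hq := ql_cont (a := a) (l := l) hal
  have hder : ∀ s, HasDerivAt (gl a al l) (ql a al l s) s := fun s =>
    (hq.integral_hasStrictDerivAt 0 s).hasDerivAt
  have hmm1 : ∀ s, mm al l s ≤ l ^ al := fun s =>
    Real.rpow_le_rpow (min_nn hl s) (min_le_right _ _) hal.le
  have hla : 0 ≤ l ^ al := Real.rpow_nonneg hl _
  have hqn : ∀ s, 0 ≤ ql a al l s := fun s => by
    unfold ql
    have := mm_nn (al := al) hl s
    positivity
  have hq1 : ∀ s, ql a al l s ≤ a * (al + 1) * l ^ al := fun s => by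
    unfold ql
    have := hmm1 s
    gcongr
  have hco : ∀ s, 0 ≤ s → a * mm al l s * s ≤ gl a al l s := by
    intro s hs
    rcases le_total s l with h | h
    · rw [gl_small hal hs h]
      unfold mm
      rw [abs_of_nonneg hs, min_eq_left h]
    · rw [gl_large hal hl h]
      unfold mm
      rw [abs_of_nonneg hs, min_eq_right h]
      have h1 : 0 ≤ a * l ^ al * (al * (s - l)) := by
        have : 0 ≤ s - l := by linarith
        positivity
      nlinarith
  refine ⟨mm_cont hal, hq, ?_, hder, ?_, mm_nn hl, hmm1, hqn, ?_, ?_, ?_, ?_, ?_, ?_, ?_⟩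
  · exact continuous_iff_continuousAt.2 fun s => (hder s).continuousAt
  · unfold gl
    rw [intervalIntegral.integral_same]
  · exact monotone_of_hasDerivAt_nonneg hder hqn
  · intro s t
    have h1 : gl a al l s - gl a al l t = ∫ r in t..s, ql a al l r := by
      unfold gl
      exact intervalIntegral.integral_interval_sub_left (hq.intervalIntegrable _ _)
        (hq.intervalIntegrable _ _)
    rw [h1, ← Real.norm_eq_abs]
    refine intervalIntegral.norm_integral_le_of_norm_le_const fun r _ => ?_
    rw [Real.norm_eq_abs, abs_of_nonneg (hqn r)]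
    exact hq1 r
  · intro s
    rcases le_total 0 s with h | h
    · have := hco s h
      nlinarith
    · have h1 := hco (-s) (by linarith)
      rw [mm_neg, gl_neg] at h1
      nlinarith
  · intro s
    have h1 : ‖gl a al l s‖ ≤ ql a al l s * |s - 0| := by
      unfold gl
      refine intervalIntegral.norm_integral_le_of_norm_le_const fun r hr => ?_
      rw [Real.norm_eq_abs, abs_of_nonneg (hqn r)]
      unfold ql
      have h2 : |r| ≤ |s| := by
        rcases le_total 0 s with h | h
        · rw [uIoc_of_le h] at hr
          rw [abs_of_nonneg hr.1.le, abs_of_nonneg h]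
          exact hr.2
        · rw [uIoc_of_ge h] at hr
          rw [abs_of_nonpos hr.2, abs_of_nonpos h]
          linarith [hr.1]
      have h3 := mm_mono hal hl h2
      gcongr
    rw [sub_zero, Real.norm_eq_abs] at h1
    exact h1
  · intro s
    unfold mm
    rw [Real.rpow_add_of_nonneg (min_nn hl s) hal.le (by norm_num)]
    have h1 : (min |s| l) ^ (2 : ℝ) ≤ s ^ 2 := by
      rw [Real.rpow_two, ← sq_abs s]
      exact pow_le_pow_left₀ (min_nn hl s) (min_le_left _ _) 2
    exact mul_le_mul_of_nonneg_left h1 (Real.rpow_nonneg (min_nn hl s) _)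
  · intro s hs
    unfold gf
    rcases le_total 0 s with h | h
    · rw [abs_of_nonneg h] at hs ⊢
      exact gl_small hal h hs
    · rw [abs_of_nonpos h] at hs ⊢
      have h1 := gl_small (a := a) hal (by linarith : 0 ≤ -s) hs
      rw [gl_neg] at h1
      linarith
  · intro M hM
    refine ⟨?_, fun s => ?_, fun s => min_le_right _ _, fun s hMl => ?_⟩
    · unfold cf
      exact (continuous_const.mul (continuous_abs.rpow_const fun _ => Or.inr hal.le)).min
        continuous_const
    · unfold cf
      refine le_min ?_ hM.le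
      positivity
    · unfold ql cf mm
      rcases le_total |s| l with h | h
      · rw [min_eq_left h]
      · rw [min_eq_right h, min_eq_right hMl, min_eq_right]
        refine hMl.trans ?_
        have := Real.rpow_le_rpow hl h hal.le
        gcongr

end Pool.Agent.BEL.H60
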